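import Mathlib

open MeasureTheory Filter Topology Set

namespace Pool.Agent.MP54cd88

/-- The standard product measure on the Cantor space `ℕ → Bool`. -/
noncomputable def lam : Measure (ℕ → Bool) :=
  Measure.infinitePi (fun _ : ℕ => (PMF.uniformOfFintype Bool).toMeasure)

/-- The set `V_m^i` of points of the Cantor space whose `m`-th coordinate is `i`. -/
def V (m : ℕ) (i : Bool) : Set (ℕ → Bool) := {x | x m = i}

/-- The finite subalgebra generated by the sets `V_m^i` with `m ≤ n`. -/
def alg (n : ℕ) : BooleanSubalgebra (Set (ℕ → Bool)) :=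
  BooleanSubalgebra.closure {W | ∃ m ≤ n, ∃ i : Bool, W = V m i}

/-- `U` is an atom of the subalgebra `S`. -/
def IsAtomOf (S : BooleanSubalgebra (Set (ℕ → Bool))) (U : Set (ℕ → Bool)) : Prop :=
  U ∈ S ∧ U ≠ ∅ ∧ ∀ W ∈ S, W ⊆ U → W = ∅ ∨ W = U

/-- `φ_m(A) = |λ(A ∩ V_m^0) - λ(A ∩ V_m^1)|`. -/
noncomputable def phi (m : ℕ) (A : Set (ℕ → Bool)) : ℝ :=
  |lam.real (A ∩ V m false) - lam.real (A ∩ V m true)|

/-- Property (T) of a subalgebra. -/
def PropertyT (B : BooleanSubalgebra (Set (ℕ → Bool))) : Prop :=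
  ∀ F : Set (Set (ℕ → Bool)), F.Finite → (∀ A ∈ F, A ∈ B) → ∀ ε : ℝ, 0 < ε →
    ∃ n : ℕ, 1 ≤ n ∧ ∀ A ∈ F, ∀ U, IsAtomOf (alg n) U →
      min (lam.real (A ∩ U)) (lam.real (U \ A)) ≤ ε * lam.real U / n ∧
      ∀ m : ℕ, n < m → m * phi m (A ∩ U) ≤ ε * lam.real U

/-- Subalgebras of the Borel algebra that contain all clopen sets and have property (T). -/
def IsTAlgebra (B : BooleanSubalgebra (Set (ℕ → Bool))) : Prop :=
  (∀ A ∈ B, MeasurableSet[borel (ℕ → Bool)] A) ∧ (∀ A, IsClopen A → A ∈ B) ∧ PropertyT B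

/-- The Stone space of a Boolean algebra: its homomorphisms to the two-element algebra. -/
def StoneSpace (α : Type*) [BooleanAlgebra α] : Type _ := BoundedLatticeHom α Bool

/-- The value of a point of the Stone space at an element of the algebra. -/
noncomputable def StoneSpace.val {α : Type*} [BooleanAlgebra α] (h : StoneSpace α) : α → Bool :=
  (show BoundedLatticeHom α Bool from h)

/-- The topology of the Stone space: pointwise convergence. -/
noncomputable instance (α : Type*) [BooleanAlgebra α] : TopologicalSpace (StoneSpace α) :=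
  TopologicalSpace.induced StoneSpace.val inferInstance

lemma StoneSpace.val_injective {α : Type*} [BooleanAlgebra α] :
    Function.Injective (StoneSpace.val (α := α)) := by
  intro h h' hh
  exact DFunLike.coe_injective (F := BoundedLatticeHom α Bool) hh

lemma StoneSpace.range_val {α : Type*} [BooleanAlgebra α] :
    Set.range (StoneSpace.val (α := α)) =
      {f : α → Bool | f ⊤ = ⊤ ∧ f ⊥ = ⊥ ∧ (∀ a b, f (a ⊔ b) = f a ⊔ f b) ∧
        (∀ a b, f (a ⊓ b) = f a ⊓ f b)} := by
  ext f
  constructor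
  · rintro ⟨h, rfl⟩
    let h' : BoundedLatticeHom α Bool := h
    exact ⟨map_top h', map_bot h', map_sup h', map_inf h'⟩
  · rintro ⟨h1, h2, h3, h4⟩
    let h' : BoundedLatticeHom α Bool :=
      { toFun := f, map_sup' := h3, map_inf' := h4, map_top' := h1, map_bot' := h2 }
    exact ⟨h', rfl⟩

lemma StoneSpace.isClosed_range {α : Type*} [BooleanAlgebra α] :
    IsClosed (Set.range (StoneSpace.val (α := α))) := by
  rw [StoneSpace.range_val]
  have hev : ∀ a : α, Continuous (fun f : α → Bool => f a) := fun a => continuous_apply a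
  have hsup : Continuous (fun p : Bool × Bool => p.1 ⊔ p.2) := continuous_of_discreteTopology
  have hinf : Continuous (fun p : Bool × Bool => p.1 ⊓ p.2) := continuous_of_discreteTopology
  have heq : {f : α → Bool | f ⊤ = ⊤ ∧ f ⊥ = ⊥ ∧ (∀ a b, f (a ⊔ b) = f a ⊔ f b) ∧
        (∀ a b, f (a ⊓ b) = f a ⊓ f b)} =
      {f : α → Bool | f ⊤ = ⊤} ∩ ({f : α → Bool | f ⊥ = ⊥} ∩
        ((⋂ a, ⋂ b, {f : α → Bool | f (a ⊔ b) = f a ⊔ f b}) ∩
          (⋂ a, ⋂ b, {f : α → Bool | f (a ⊓ b) = f a ⊓ f b}))) := by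
    ext f
    simp only [mem_ofPred_eq, mem_inter_iff, mem_iInter]
  rw [heq]
  refine (isClosed_eq (hev ⊤) continuous_const).inter
    ((isClosed_eq (hev ⊥) continuous_const).inter (IsClosed.inter ?_ ?_))
  · exact isClosed_iInter fun a => isClosed_iInter fun b =>
      isClosed_eq (hev _) (hsup.comp ((hev a).prodMk (hev b)))
  · exact isClosed_iInter fun a => isClosed_iInter fun b =>
      isClosed_eq (hev _) (hinf.comp ((hev a).prodMk (hev b)))

lemma StoneSpace.isClosedEmbedding {α : Type*} [BooleanAlgebra α] :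
    IsClosedEmbedding (StoneSpace.val (α := α)) :=
  ⟨⟨⟨rfl⟩, StoneSpace.val_injective⟩, StoneSpace.isClosed_range⟩

instance (α : Type*) [BooleanAlgebra α] : CompactSpace (StoneSpace α) :=
  StoneSpace.isClosedEmbedding.compactSpace

instance (α : Type*) [BooleanAlgebra α] : T2Space (StoneSpace α) :=
  StoneSpace.isClosedEmbedding.isEmbedding.t2Space

/-- A Banach space is a Grothendieck space if weak* convergent sequences in its dual
converge weakly. -/
def IsGrothendieckSpace (X : Type*) [NormedAddCommGroup X] [NormedSpace ℝ X] : Prop :=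
  ∀ (u : ℕ → StrongDual ℝ X) (v : StrongDual ℝ X),
    (∀ x : X, Tendsto (fun n => u n x) atTop (𝓝 (v x))) →
    ∀ G : StrongDual ℝ (StrongDual ℝ X), Tendsto (fun n => G (u n)) atTop (𝓝 (G v))

/-- The Grothendieck property of a Boolean algebra. -/
def HasGrothendieckProperty (α : Type*) [BooleanAlgebra α] : Prop :=
  IsGrothendieckSpace C(StoneSpace α, ℝ)

end Pool.Agent.MP54cd88
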