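import Pool.Agent.MP54cd88.Defs

open MeasureTheory Filter Topology Set

namespace Pool.Agent.MP54cd88

section General

variable {α : Type*} [BooleanAlgebra α]

lemma StoneSpace.continuous_val (a : α) : Continuous (fun h : StoneSpace α => h.val a) :=
  (continuous_apply a).comp StoneSpace.isClosedEmbedding.continuous

/-- The indicator function of the clopen set given by `a`. -/
noncomputable def chi (a : α) : C(StoneSpace α, ℝ) where
  toFun h := if h.val a = true then 1 else 0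
  continuous_toFun := by
    have : (fun h : StoneSpace α => if h.val a = true then (1:ℝ) else 0)
      = (fun b : Bool => if b = true then (1:ℝ) else 0) ∘ (fun h => h.val a) := rfl
    rw [this]
    exact continuous_of_discreteTopology.comp (StoneSpace.continuous_val a)

lemma chi_apply (a : α) (h : StoneSpace α) : chi a h = if h.val a = true then 1 else 0 := rfl

lemma val_inf (h : StoneSpace α) (a b : α) : h.val (a ⊓ b) = (h.val a ⊓ h.val b) :=
  map_inf (show BoundedLatticeHom α Bool from h) a b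

lemma val_top (h : StoneSpace α) : h.val ⊤ = true :=
  map_top (show BoundedLatticeHom α Bool from h)

lemma chi_mul (a b : α) : chi a * chi b = chi (a ⊓ b) := by
  ext h
  simp only [ContinuousMap.mul_apply, chi_apply, val_inf]
  cases h.val a <;> cases h.val b <;> simp

lemma chi_top : chi (⊤ : α) = 1 := by
  ext h
  simp [chi_apply, val_top]

/-- The span of the indicator functions is dense. -/
lemma span_chi_dense : (Submodule.span ℝ (Set.range (chi (α := α)))).topologicalClosure = ⊤ := by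
  let S : Submonoid C(StoneSpace α, ℝ) :=
    { carrier := Set.range (chi (α := α))
      mul_mem' := by
        rintro _ _ ⟨a, rfl⟩ ⟨b, rfl⟩
        exact ⟨a ⊓ b, (chi_mul a b).symm⟩
      one_mem' := ⟨⊤, chi_top⟩ }
  have hS : (S : Set C(StoneSpace α, ℝ)) = Set.range (chi (α := α)) := rfl
  let T : Subalgebra ℝ C(StoneSpace α, ℝ) := Algebra.adjoin ℝ (Set.range (chi (α := α)))
  have hT : Subalgebra.toSubmodule T = Submodule.span ℝ (Set.range (chi (α := α))) := by
    have := Algebra.adjoin_eq_span (R := ℝ) (Set.range (chi (α := α)))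
    rw [← hS] at this
    rw [Submonoid.closure_eq] at this
    rw [hS] at this
    exact this
  have hsep : T.SeparatesPoints := by
    intro x y hxy
    have : ∃ a, x.val a ≠ y.val a := by
      by_contra h
      push Not at h
      exact hxy (StoneSpace.val_injective (funext h))
    obtain ⟨a, ha⟩ := this
    refine ⟨chi a, ⟨chi a, Algebra.subset_adjoin ⟨a, rfl⟩, rfl⟩, ?_⟩
    rw [chi_apply, chi_apply]
    cases h1 : x.val a <;> cases h2 : y.val a <;> simp_all
  have hclos := ContinuousMap.subalgebra_topologicalClosure_eq_top_of_separatesPoints T hsep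
  rw [← hT]
  refine SetLike.coe_injective ?_
  have h1 : (T.topologicalClosure : Set C(StoneSpace α, ℝ)) = Set.univ := by
    rw [hclos]; rfl
  rw [Subalgebra.topologicalClosure_coe] at h1
  rw [Submodule.topologicalClosure_coe]
  exact h1

end General


/-! ### Computations with the product measure -/

instance : IsProbabilityMeasure lam := by unfold lam; infer_instance

lemma unif_singleton (b : Bool) : (PMF.uniformOfFintype Bool).toMeasure {b} = (1/2 : ENNReal) := by
  rw [PMF.toMeasure_apply_singleton _ _ (measurableSet_singleton b)]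
  simp

/-- boxes -/
def box (S : Finset ℕ) (s : ℕ → Bool) : Set (ℕ → Bool) := {x | ∀ k ∈ S, x k = s k}

lemma box_eq_pi (S : Finset ℕ) (s : ℕ → Bool) :
    box S s = Set.pi (S : Set ℕ) (fun k => {s k}) := by
  ext x; simp [box, Set.mem_pi]

lemma measurableSet_box (S : Finset ℕ) (s : ℕ → Bool) : MeasurableSet (box S s) := by
  rw [box_eq_pi]
  exact MeasurableSet.pi S.countable_toSet (fun _ _ => measurableSet_singleton _)

lemma lam_box (S : Finset ℕ) (s : ℕ → Bool) : lam (box S s) = (1/2 : ENNReal) ^ S.card := by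
  rw [box_eq_pi, lam, Measure.infinitePi_pi]
  · simp only [unif_singleton, Finset.prod_const]
  · intro i _; exact measurableSet_singleton _

lemma lamReal_box (S : Finset ℕ) (s : ℕ → Bool) : lam.real (box S s) = (1/2 : ℝ) ^ S.card := by
  rw [Measure.real, lam_box]; simp

/-- flipping the coordinates in a set -/
def flip (S : Set ℕ) [DecidablePred (· ∈ S)] (x : ℕ → Bool) : ℕ → Bool :=
  fun k => (if k ∈ S then Bool.not else id) (x k)

lemma measurable_flip (S : Set ℕ) [DecidablePred (· ∈ S)] : Measurable (flip S) := by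
  unfold flip
  refine measurable_pi_lambda _ (fun k => ?_)
  split_ifs
  · exact (measurable_of_countable Bool.not).comp (measurable_pi_apply (X := fun _ : ℕ => Bool) k)
  · exact measurable_pi_apply k

lemma unif_not : (PMF.uniformOfFintype Bool).toMeasure.map Bool.not
    = (PMF.uniformOfFintype Bool).toMeasure := by
  refine Measure.ext_of_singleton (fun b => ?_)
  rw [Measure.map_apply (measurable_of_countable _) (measurableSet_singleton b)]
  have : Bool.not ⁻¹' {b} = {!b} := by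
    ext x; cases x <;> cases b <;> simp
  rw [this, unif_singleton, unif_singleton]

lemma map_flip (S : Set ℕ) [DecidablePred (· ∈ S)] : lam.map (flip S) = lam := by
  unfold flip lam
  rw [Measure.infinitePi_map_pi]
  · congr 1
    funext i
    split_ifs
    · exact unif_not
    · simp
  · intro i
    exact measurable_of_countable _

lemma lam_flip (S : Set ℕ) [DecidablePred (· ∈ S)] {A : Set (ℕ → Bool)} (hA : MeasurableSet A) :
    lam (flip S ⁻¹' A) = lam A := by
  conv_rhs => rw [← map_flip S]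
  rw [Measure.map_apply (measurable_flip S) hA]

lemma measurableSet_V (m : ℕ) (b : Bool) : MeasurableSet (V m b) := by
  have : V m b = (fun x : ℕ → Bool => x m) ⁻¹' {b} := by ext x; simp [V]
  rw [this]
  exact (measurable_pi_apply m) (measurableSet_singleton b)

/-- If a flip that changes coordinate `m` preserves `A`, then `A` is balanced at `m`. -/
lemma bal_of_flip (S : Set ℕ) [DecidablePred (· ∈ S)] {A : Set (ℕ → Bool)} (hA : MeasurableSet A)
    {m : ℕ} (hm : m ∈ S) (h : ∀ x, flip S x ∈ A ↔ x ∈ A) :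
    lam (A ∩ V m false) = lam (A ∩ V m true) := by
  rw [← lam_flip S (hA.inter (measurableSet_V m false))]
  congr 1
  ext x
  simp only [mem_preimage, mem_inter_iff, h, V, mem_ofPred_eq, flip, hm, if_true]
  cases x m <;> simp

/-- Cylinders. -/
def cyl (n : ℕ) (s : ℕ → Bool) : Set (ℕ → Bool) := {x | ∀ k ≤ n, x k = s k}

lemma cyl_eq_box (n : ℕ) (s : ℕ → Bool) : cyl n s = box (Finset.range (n+1)) s := by
  ext x; simp [cyl, box]

lemma measurableSet_cyl (n : ℕ) (s : ℕ → Bool) : MeasurableSet (cyl n s) := by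
  rw [cyl_eq_box]; exact measurableSet_box _ _

lemma lamReal_cyl (n : ℕ) (s : ℕ → Bool) : lam.real (cyl n s) = (1/2 : ℝ) ^ (n+1) := by
  rw [cyl_eq_box, lamReal_box]; simp

lemma cyl_bal (n : ℕ) (s : ℕ → Bool) {m : ℕ} (hm : n < m) :
    lam (cyl n s ∩ V m false) = lam (cyl n s ∩ V m true) := by
  classical
  refine bal_of_flip {m} (measurableSet_cyl n s) rfl (fun x => ?_)
  simp only [cyl, mem_ofPred_eq, flip, mem_singleton_iff]
  refine forall₂_congr (fun k hk => ?_)
  rw [if_neg (by omega)]; rfl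

/-- Elements of `alg n` depend only on the coordinates up to `n`. -/
lemma alg_dep {n : ℕ} {W : Set (ℕ → Bool)} (hW : W ∈ alg n) :
    ∀ x y : ℕ → Bool, (∀ k ≤ n, x k = y k) → (x ∈ W ↔ y ∈ W) := by
  unfold alg at hW
  induction hW using BooleanSubalgebra.closure_bot_sup_induction with
  | mem W hW =>
    obtain ⟨m, hm, i, rfl⟩ := hW
    intro x y h
    simp [V, h m hm]
  | bot => intro x y _; simp
  | sup A hA B hB ihA ihB =>
    intro x y h
    simp only [sup_eq_union, mem_union, ihA x y h, ihB x y h]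
  | compl A hA ih =>
    intro x y h
    simp only [mem_compl_iff, ih x y h]

lemma V_mem_alg {n m : ℕ} (hm : m ≤ n) (b : Bool) : V m b ∈ alg n :=
  BooleanSubalgebra.subset_closure ⟨m, hm, b, rfl⟩

lemma cyl_mem_alg (n : ℕ) (s : ℕ → Bool) : cyl n s ∈ alg n := by
  have key : ∀ N : ℕ, N ≤ n + 1 → {x : ℕ → Bool | ∀ k < N, x k = s k} ∈ alg n := by
    intro N
    induction N with
    | zero =>
      intro _
      have : {x : ℕ → Bool | ∀ k < 0, x k = s k} = (⊤ : Set (ℕ → Bool)) := by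
        ext x; simp
      rw [this]; exact BooleanSubalgebra.top_mem
    | succ N ih =>
      intro hN
      have : {x : ℕ → Bool | ∀ k < N + 1, x k = s k}
          = {x : ℕ → Bool | ∀ k < N, x k = s k} ⊓ V N (s N) := by
        ext x
        simp only [mem_ofPred_eq, inf_eq_inter, mem_inter_iff, V]
        constructor
        · intro h; exact ⟨fun k hk => h k (by omega), h N (by omega)⟩
        · rintro ⟨h1, h2⟩ k hk
          rcases Nat.lt_succ_iff_lt_or_eq.mp hk with h | h
          · exact h1 k h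
          · rw [h]; exact h2
      rw [this]
      exact BooleanSubalgebra.inf_mem (ih (by omega)) (V_mem_alg (by omega) _)
  have := key (n+1) le_rfl
  convert this using 1
  ext x; simp [cyl]

lemma self_mem_cyl (n : ℕ) (s : ℕ → Bool) : s ∈ cyl n s := fun _ _ => rfl

lemma isAtomOf_alg_iff (n : ℕ) (U : Set (ℕ → Bool)) :
    IsAtomOf (alg n) U ↔ ∃ s, U = cyl n s := by
  constructor
  · rintro ⟨hU, hne, hat⟩
    obtain ⟨x, hx⟩ := nonempty_iff_ne_empty.mpr hne
    refine ⟨x, ?_⟩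
    rcases hat (cyl n x) (cyl_mem_alg n x)
      (fun y hy => (alg_dep hU x y (fun k hk => (hy k hk).symm)).mp hx) with h | h
    · exact absurd h (nonempty_iff_ne_empty.mp ⟨x, self_mem_cyl n x⟩)
    · exact h.symm
  · rintro ⟨s, rfl⟩
    refine ⟨cyl_mem_alg n s, nonempty_iff_ne_empty.mp ⟨s, self_mem_cyl n s⟩, ?_⟩
    intro W hW hsub
    by_cases hWe : W = ∅
    · exact Or.inl hWe
    · right
      obtain ⟨x, hx⟩ := nonempty_iff_ne_empty.mpr hWe
      refine Subset.antisymm hsub (fun y hy => ?_)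
      refine (alg_dep hW x y (fun k hk => ?_)).mp hx
      rw [hsub hx k hk, hy k hk]

/-- A set depending on finitely many coordinates is measurable. -/
lemma measurableSet_of_dep {n : ℕ} {W : Set (ℕ → Bool)}
    (h : ∀ x y : ℕ → Bool, (∀ k ≤ n, x k = y k) → (x ∈ W ↔ y ∈ W)) : MeasurableSet W := by
  let r : (ℕ → Bool) → (Finset.range (n+1) → Bool) := fun x k => x k
  have hr : Measurable r := by fun_prop
  have : W = r ⁻¹' (r '' W) := by
    ext x
    constructor
    · intro hx; exact ⟨x, hx, rfl⟩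
    · rintro ⟨y, hy, hxy⟩
      refine (h y x (fun k hk => ?_)).mp hy
      have := congrFun hxy ⟨k, Finset.mem_range.mpr (Nat.lt_succ_iff.mpr hk)⟩
      exact this
  rw [this]
  exact hr (Set.toFinite _).measurableSet

/-- Clopen sets depend on finitely many coordinates. -/
lemma dep_of_isClopen {C : Set (ℕ → Bool)} (hC : IsClopen C) :
    ∃ N : ℕ, ∀ x y : ℕ → Bool, (∀ k ≤ N, x k = y k) → (x ∈ C ↔ y ∈ C) := by
  have hloc : ∀ O : Set (ℕ → Bool), IsOpen O → ∀ x ∈ O, ∃ N, cyl N x ⊆ O := by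
    intro O hO x hx
    obtain ⟨I, u, hu, hsub⟩ := isOpen_pi_iff.mp hO x hx
    refine ⟨I.sup id, fun y hy => hsub ?_⟩
    intro i hi
    have : y i = x i := hy i (Finset.le_sup (f := id) hi)
    rw [this]
    exact (hu i hi).2
  have hex : ∀ x : ℕ → Bool, ∃ N, ∀ y ∈ cyl N x, (x ∈ C ↔ y ∈ C) := by
    intro x
    by_cases hx : x ∈ C
    · obtain ⟨N, hN⟩ := hloc C hC.isOpen x hx
      exact ⟨N, fun y hy => ⟨fun _ => hN hy, fun _ => hx⟩⟩
    · obtain ⟨N, hN⟩ := hloc Cᶜ hC.compl.isOpen x hx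
      exact ⟨N, fun y hy => ⟨fun h => absurd h hx, fun h => absurd h (hN hy)⟩⟩
  choose N hN using hex
  have hopen : ∀ x : ℕ → Bool, cyl (N x) x ∈ 𝓝 x := by
    intro x
    refine IsOpen.mem_nhds ?_ (self_mem_cyl _ _)
    have : cyl (N x) x = Set.pi (Set.Iic (N x)) (fun k => {x k}) := by
      ext y; simp [cyl, Set.mem_pi]
    rw [this]
    exact isOpen_set_pi (Set.finite_Iic _) (fun _ _ => isOpen_discrete _)
  obtain ⟨t, -, ht⟩ := isCompact_univ.elim_nhds_subcover (fun x => cyl (N x) x)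
    (fun x _ => hopen x)
  refine ⟨t.sup N, fun x y hxy => ?_⟩
  obtain ⟨z, hz, hxz⟩ := mem_iUnion₂.mp (ht (mem_univ x))
  have hyz : y ∈ cyl (N z) z := by
    intro k hk
    rw [← hxy k (hk.trans (Finset.le_sup hz))]
    exact hxz k hk
  rw [← hN z x hxz, ← hN z y hyz]

/-! ### The sets `Y i` -/

/-- A tower sequence. -/
def l : ℕ → ℕ
  | 0 => 2
  | (i+1) => 2 ^ l i

lemma l_succ (i : ℕ) : l (i+1) = 2 ^ l i := rfl

lemma two_le_l (i : ℕ) : 2 ≤ l i := by
  induction i with
  | zero => exact le_rfl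
  | succ i ih =>
    rw [l_succ]
    calc 2 = 2 ^ 1 := rfl
      _ ≤ 2 ^ l i := Nat.pow_le_pow_right (by norm_num) (by omega)

lemma pow_ge_add_two {x : ℕ} (hx : 2 ≤ x) : x + 2 ≤ 2 ^ x := by
  induction x, hx using Nat.le_induction with
  | base => norm_num
  | succ n hn ih => rw [pow_succ]; omega

lemma l_add_two_le (i : ℕ) : l i + 2 ≤ l (i+1) := by
  rw [l_succ]; exact pow_ge_add_two (two_le_l i)

lemma l_strictMono : StrictMono l :=
  strictMono_nat_of_lt_succ (fun i => by have := l_add_two_le i; omega)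

lemma l_lt_add_two {i j : ℕ} (h : i < j) : l i + 2 ≤ l j :=
  (l_add_two_le i).trans (l_strictMono.monotone h)

/-- The basic balanced sets. -/
def Y (i : ℕ) : Set (ℕ → Bool) :=
  {x | (∀ k < l i - 1, x k = false) ∧ x (l i - 1) = true ∧ x (l i) = x (l (i+1))}

/-- Unions of the basic sets. -/
def AJ (J : Set ℕ) : Set (ℕ → Bool) := {x | ∃ i ∈ J, x ∈ Y i}

/-- The neighbourhood of the zero sequence. -/
def Z0 (n : ℕ) : Set (ℕ → Bool) := {x | ∀ k ≤ n, x k = false}

lemma Z0_eq_cyl (n : ℕ) : Z0 n = cyl n (fun _ => false) := rfl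

lemma Y_disj {i i' : ℕ} {x : ℕ → Bool} (h : x ∈ Y i) (h' : x ∈ Y i') : i = i' := by
  by_contra hne
  wlog hlt : i < i' generalizing i i'
  · exact this h' h (Ne.symm hne) (by omega)
  have h1 := h.2.1
  have h2 := h'.1 (l i - 1) (by have := l_lt_add_two hlt; have := two_le_l i; omega)
  rw [h1] at h2
  exact Bool.noConfusion h2

lemma Y_sub_Z0 {i n : ℕ} (h : n + 2 ≤ l i) : Y i ⊆ Z0 n := by
  intro x hx k hk
  exact hx.1 k (by omega)

lemma Y_inter_Z0 {i n : ℕ} (h : l i ≤ n + 1) {x : ℕ → Bool} (hx : x ∈ Y i) : x ∉ Z0 n := by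
  intro hx'
  have h1 := hx.2.1
  rw [hx' (l i - 1) (by omega)] at h1
  exact Bool.noConfusion h1

lemma Y_dep (i : ℕ) (x y : ℕ → Bool) (h : ∀ k ≤ l (i+1), x k = y k) : x ∈ Y i ↔ y ∈ Y i := by
  have h2 := l_add_two_le i
  unfold Y
  simp only [mem_ofPred_eq]
  rw [h (l i - 1) (by omega), h (l i) (by omega), h (l (i+1)) le_rfl]
  refine and_congr ?_ Iff.rfl
  exact forall₂_congr (fun k hk => by rw [h k (by omega)])

lemma measurableSet_Y (i : ℕ) : MeasurableSet (Y i) := measurableSet_of_dep (Y_dep i)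

lemma AJ_eq (J : Set ℕ) : AJ J = ⋃ i ∈ J, Y i := by
  ext x; simp [AJ]

lemma measurableSet_AJ (J : Set ℕ) : MeasurableSet (AJ J) := by
  rw [AJ_eq]
  exact MeasurableSet.biUnion J.to_countable (fun i _ => measurableSet_Y i)

/-- `Y i` is balanced at every coordinate `m ≥ l i`. -/
lemma Y_bal {i m : ℕ} (hm : l i ≤ m) : lam (Y i ∩ V m false) = lam (Y i ∩ V m true) := by
  classical
  have h2 := l_add_two_le i
  have h3 := two_le_l i
  by_cases hmm : m = l i ∨ m = l (i+1)
  · refine bal_of_flip {l i, l (i+1)} (measurableSet_Y i) (by simpa using hmm) (fun x => ?_)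
    unfold Y
    simp only [mem_ofPred_eq, flip, mem_insert_iff, mem_singleton_iff]
    rw [if_neg (show ¬ (l i - 1 = l i ∨ l i - 1 = l (i+1)) by omega)]
    simp only [true_or, or_true, if_true]
    refine and_congr ?_ (and_congr Iff.rfl ?_)
    · refine forall₂_congr (fun k hk => ?_)
      rw [if_neg (by omega)]; rfl
    · cases x (l i) <;> cases x (l (i+1)) <;> simp
  · push Not at hmm
    refine bal_of_flip {m} (measurableSet_Y i) rfl (fun x => ?_)
    unfold Y
    simp only [mem_ofPred_eq, flip, mem_singleton_iff]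
    rw [if_neg (show ¬ (l i - 1 = m) by omega), if_neg (Ne.symm hmm.1),
      if_neg (Ne.symm hmm.2)]
    refine and_congr ?_ (and_congr Iff.rfl Iff.rfl)
    refine forall₂_congr (fun k hk => ?_)
    rw [if_neg (by omega)]; rfl

lemma AJ_bal {J : Set ℕ} {m : ℕ} (hJ : ∀ i ∈ J, l i ≤ m) :
    lam (AJ J ∩ V m false) = lam (AJ J ∩ V m true) := by
  have key : ∀ b : Bool, lam (AJ J ∩ V m b) = ∑' i : J, lam (Y i ∩ V m b) := by
    intro b
    have : AJ J ∩ V m b = ⋃ i ∈ J, (Y i ∩ V m b) := by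
      rw [AJ_eq, iUnion₂_inter]
    rw [this, measure_biUnion J.to_countable]
    · intro i _ i' _ hne
      refine Set.disjoint_left.mpr (fun x hx hx' => hne (Y_disj hx.1 hx'.1))
    · intro i _
      exact (measurableSet_Y i).inter (measurableSet_V m b)
  rw [key, key]
  exact tsum_congr (fun i => Y_bal (hJ i i.2))

lemma lamReal_Z0 (n : ℕ) : lam.real (Z0 n) = (1/2 : ℝ) ^ (n+1) := lamReal_cyl n _

/-- Tails of the family are small. -/
lemma AJ_tail {J : Set ℕ} {i₀ : ℕ} (hJ : ∀ i ∈ J, i₀ ≤ i) :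
    AJ J ⊆ Z0 (l i₀ - 2) := by
  rintro x ⟨i, hi, hx⟩
  refine Y_sub_Z0 ?_ hx
  have := l_strictMono.monotone (hJ i hi)
  have := two_le_l i₀
  omega

lemma lamReal_tail {R : Set (ℕ → Bool)} {i₀ : ℕ} (hR : R ⊆ Z0 (l i₀ - 2)) :
    lam.real R ≤ 2 * (1/2 : ℝ) ^ (l i₀) := by
  have h2 := two_le_l i₀
  calc lam.real R ≤ lam.real (Z0 (l i₀ - 2)) := measureReal_mono hR
    _ = (1/2 : ℝ) ^ (l i₀ - 2 + 1) := lamReal_Z0 _
    _ = 2 * (1/2 : ℝ) ^ (l i₀) := by
      have : l i₀ = (l i₀ - 2 + 1) + 1 := by omega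
      conv_rhs => rw [this, pow_succ]
      ring

lemma phi_nonneg (m : ℕ) (A : Set (ℕ → Bool)) : 0 ≤ phi m A := abs_nonneg _

lemma phi_le (m : ℕ) (A : Set (ℕ → Bool)) : phi m A ≤ lam.real A := by
  unfold phi
  rw [abs_le]
  have h1 : lam.real (A ∩ V m false) ≤ lam.real A := measureReal_mono inter_subset_left
  have h2 : lam.real (A ∩ V m true) ≤ lam.real A := measureReal_mono inter_subset_left
  have h3 : 0 ≤ lam.real (A ∩ V m false) := measureReal_nonneg
  have h4 : 0 ≤ lam.real (A ∩ V m true) := measureReal_nonneg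
  constructor <;> linarith

lemma phi_eq_zero {m : ℕ} {A : Set (ℕ → Bool)} (h : lam (A ∩ V m false) = lam (A ∩ V m true)) :
    phi m A = 0 := by
  unfold phi Measure.real
  rw [h, sub_self, abs_zero]

/-- Signed difference. -/
noncomputable def dd (m : ℕ) (A : Set (ℕ → Bool)) : ℝ :=
  lam.real (A ∩ V m false) - lam.real (A ∩ V m true)

lemma phi_eq (m : ℕ) (A : Set (ℕ → Bool)) : phi m A = |dd m A| := rfl

lemma dd_union {m : ℕ} {A B : Set (ℕ → Bool)} (hB : MeasurableSet B) (h : Disjoint A B) :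
    dd m (A ∪ B) = dd m A + dd m B := by
  unfold dd
  have key : ∀ b : Bool, lam.real ((A ∪ B) ∩ V m b) = lam.real (A ∩ V m b) + lam.real (B ∩ V m b) := by
    intro b
    rw [union_inter_distrib_right]
    exact measureReal_union (h.mono inter_subset_left inter_subset_left)
      (hB.inter (measurableSet_V m b))
  rw [key, key]; ring

lemma dd_cyl (n : ℕ) (s : ℕ → Bool) {m : ℕ} (hm : n < m) : dd m (cyl n s) = 0 := by
  unfold dd Measure.real
  rw [cyl_bal n s hm, sub_self]

/-- Complements inside a balanced set. -/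
lemma phi_diff_cyl {n m : ℕ} (s : ℕ → Bool) (hm : n < m) {A : Set (ℕ → Bool)}
    (hA : MeasurableSet A) : phi m (cyl n s \ A) = phi m (A ∩ cyl n s) := by
  have h1 : cyl n s = (cyl n s \ A) ∪ (A ∩ cyl n s) := by
    rw [inter_comm]; exact (sdiff_union_inter _ _).symm
  have h2 : dd m (cyl n s) = dd m (cyl n s \ A) + dd m (A ∩ cyl n s) := by
    conv_lhs => rw [h1]
    refine dd_union (hA.inter (measurableSet_cyl n s)) ?_
    exact Set.disjoint_left.mpr (fun x hx hx' => hx.2 hx'.1)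
  rw [dd_cyl n s hm] at h2
  rw [phi_eq, phi_eq]
  have : dd m (cyl n s \ A) = - dd m (A ∩ cyl n s) := by linarith
  rw [this, abs_neg]

/-! ### The algebra `B0` -/

/-- Local form of the elements of `B0` at level `j`. -/
def Good (j : ℕ) (A : Set (ℕ → Bool)) : Prop :=
  (∀ x y : ℕ → Bool, (∀ k ≤ l j, x k = y k) → x ∉ Z0 (l j) → (x ∈ A ↔ y ∈ A)) ∧
  ∃ J : Set ℕ, j ∉ J ∧
    ((∀ x ∈ Z0 (l j), (x ∈ A ↔ x ∈ AJ J)) ∨ (∀ x ∈ Z0 (l j), (x ∈ A ↔ x ∉ AJ J)))

lemma Good.compl {j : ℕ} {A : Set (ℕ → Bool)} (h : Good j A) : Good j Aᶜ := by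
  obtain ⟨h1, J, hJ, h2⟩ := h
  refine ⟨fun x y hxy hx => not_congr (h1 x y hxy hx), J, hJ, ?_⟩
  rcases h2 with h2 | h2
  · right
    intro x hx
    rw [mem_compl_iff, h2 x hx]
  · left
    intro x hx
    rw [mem_compl_iff, h2 x hx, not_not]

lemma AJ_inter (J J' : Set ℕ) (x : ℕ → Bool) : x ∈ AJ (J ∩ J') ↔ x ∈ AJ J ∧ x ∈ AJ J' := by
  constructor
  · rintro ⟨i, hi, hx⟩
    exact ⟨⟨i, hi.1, hx⟩, ⟨i, hi.2, hx⟩⟩
  · rintro ⟨⟨i, hi, hx⟩, ⟨i', hi', hx'⟩⟩
    have := Y_disj hx hx'
    subst this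
    exact ⟨i, ⟨hi, hi'⟩, hx⟩

lemma AJ_diff (J J' : Set ℕ) (x : ℕ → Bool) : x ∈ AJ (J \ J') ↔ x ∈ AJ J ∧ x ∉ AJ J' := by
  constructor
  · rintro ⟨i, hi, hx⟩
    refine ⟨⟨i, hi.1, hx⟩, ?_⟩
    rintro ⟨i', hi', hx'⟩
    have := Y_disj hx hx'
    subst this
    exact hi.2 hi'
  · rintro ⟨⟨i, hi, hx⟩, h⟩
    exact ⟨i, ⟨hi, fun hi' => h ⟨i, hi', hx⟩⟩, hx⟩

lemma AJ_union (J J' : Set ℕ) (x : ℕ → Bool) : x ∈ AJ (J ∪ J') ↔ x ∈ AJ J ∨ x ∈ AJ J' := by
  constructor
  · rintro ⟨i, hi | hi, hx⟩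
    · exact Or.inl ⟨i, hi, hx⟩
    · exact Or.inr ⟨i, hi, hx⟩
  · rintro (⟨i, hi, hx⟩ | ⟨i, hi, hx⟩)
    · exact ⟨i, Or.inl hi, hx⟩
    · exact ⟨i, Or.inr hi, hx⟩

lemma Good.union {j : ℕ} {A B : Set (ℕ → Bool)} (hA : Good j A) (hB : Good j B) :
    Good j (A ∪ B) := by
  obtain ⟨a1, J, hJ, a2⟩ := hA
  obtain ⟨b1, K, hK, b2⟩ := hB
  refine ⟨fun x y hxy hx => or_congr (a1 x y hxy hx) (b1 x y hxy hx), ?_⟩
  rcases a2 with a2 | a2 <;> rcases b2 with b2 | b2
  · refine ⟨J ∪ K, fun h => h.elim hJ hK, Or.inl (fun x hx => ?_)⟩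
    rw [AJ_union, mem_union, a2 x hx, b2 x hx]
  · refine ⟨K \ J, fun h => hK h.1, Or.inr (fun x hx => ?_)⟩
    rw [AJ_diff, mem_union, a2 x hx, b2 x hx]
    tauto
  · refine ⟨J \ K, fun h => hJ h.1, Or.inr (fun x hx => ?_)⟩
    rw [AJ_diff, mem_union, a2 x hx, b2 x hx]
    tauto
  · refine ⟨J ∩ K, fun h => hK h.2, Or.inr (fun x hx => ?_)⟩
    rw [AJ_inter, mem_union, a2 x hx, b2 x hx]
    tauto

lemma Good.measurableSet {j : ℕ} {A : Set (ℕ → Bool)} (h : Good j A) : MeasurableSet A := by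
  obtain ⟨h1, J, hJ, h2⟩ := h
  have hW : MeasurableSet (A \ Z0 (l j)) := by
    refine measurableSet_of_dep (n := l j) (fun x y hxy => ?_)
    have hZ : x ∈ Z0 (l j) ↔ y ∈ Z0 (l j) :=
      forall₂_congr (fun k hk => by rw [hxy k hk])
    by_cases hx : x ∈ Z0 (l j)
    · have hy := hZ.mp hx
      simp [hx, hy]
    · have hy := (not_congr hZ).mp hx
      simp only [Set.mem_sdiff, hx, hy, not_false_eq_true, and_true]
      exact h1 x y hxy hx
  have hW' : MeasurableSet (A ∩ Z0 (l j)) := by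
    rcases h2 with h2 | h2
    · have : A ∩ Z0 (l j) = AJ J ∩ Z0 (l j) := by
        ext x
        constructor
        · rintro ⟨hx, hx'⟩; exact ⟨(h2 x hx').mp hx, hx'⟩
        · rintro ⟨hx, hx'⟩; exact ⟨(h2 x hx').mpr hx, hx'⟩
      rw [this]
      exact (measurableSet_AJ J).inter (measurableSet_cyl _ _)
    · have : A ∩ Z0 (l j) = (AJ J)ᶜ ∩ Z0 (l j) := by
        ext x
        constructor
        · rintro ⟨hx, hx'⟩; exact ⟨(h2 x hx').mp hx, hx'⟩
        · rintro ⟨hx, hx'⟩; exact ⟨(h2 x hx').mpr hx, hx'⟩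
      rw [this]
      exact (measurableSet_AJ J).compl.inter (measurableSet_cyl _ _)
  have : A = (A \ Z0 (l j)) ∪ (A ∩ Z0 (l j)) := (sdiff_union_inter _ _).symm
  rw [this]
  exact hW.union hW'

lemma good_AJ {j : ℕ} {J : Set ℕ} (hj : j ∉ J) : Good j (AJ J) := by
  refine ⟨fun x y hxy hx => ?_, J, hj, Or.inl (fun x _ => Iff.rfl)⟩
  have key : ∀ i ∈ J, (x ∈ Y i ↔ y ∈ Y i) := by
    intro i hi
    rcases lt_trichotomy i j with h | h | h
    · refine Y_dep i x y (fun k hk => hxy k (hk.trans ?_))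
      exact l_strictMono.monotone h
    · exact absurd (h ▸ hi) hj
    · have hsub : Y i ⊆ Z0 (l j) := Y_sub_Z0 (l_lt_add_two h)
      have hy : y ∉ Z0 (l j) := by
        intro hy
        exact hx (fun k hk => (hxy k hk).trans (hy k hk))
      exact ⟨fun h => absurd (hsub h) hx, fun h => absurd (hsub h) hy⟩
  exact exists_congr (fun i => and_congr_right (fun hi => key i hi))

lemma good_of_dep {j N : ℕ} {C : Set (ℕ → Bool)}
    (h : ∀ x y : ℕ → Bool, (∀ k ≤ N, x k = y k) → (x ∈ C ↔ y ∈ C)) (hN : N ≤ l j) :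
    Good j C := by
  refine ⟨fun x y hxy _ => h x y (fun k hk => hxy k (hk.trans hN)), ∅, fun h => h, ?_⟩
  have hAJ : ∀ x, x ∉ AJ ∅ := by
    rintro x ⟨i, hi, _⟩; exact hi
  by_cases h0 : (fun _ => false) ∈ C
  · right
    intro x hx
    have : x ∈ C ↔ (fun _ => false) ∈ C := h x _ (fun k hk => hx k (hk.trans hN))
    rw [this]
    exact ⟨fun _ => hAJ x, fun _ => h0⟩
  · left
    intro x hx
    have : x ∈ C ↔ (fun _ => false) ∈ C := h x _ (fun k hk => hx k (hk.trans hN))
    rw [this]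
    exact ⟨fun h => absurd h h0, fun h => absurd h (hAJ x)⟩

/-- The filter used in the construction. -/
noncomputable abbrev UU : Filter ℕ := (hyperfilter ℕ : Filter ℕ)

lemma UU_le : UU ≤ atTop := Nat.hyperfilter_le_atTop

/-- The algebra generated by the clopen sets and the sets `AJ J`, `J ∉ UU`
(in a convenient explicit form). -/
def B0 : BooleanSubalgebra (Set (ℕ → Bool)) where
  carrier := {A | ∀ᶠ j in UU, Good j A}
  supClosed' := by
    intro A hA B hB
    filter_upwards [hA, hB] with j h1 h2 using h1.union h2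
  infClosed' := by
    intro A hA B hB
    filter_upwards [hA, hB] with j h1 h2
    have := (h1.compl.union h2.compl).compl
    rwa [compl_union, compl_compl, compl_compl] at this
  compl_mem' := by
    intro A hA
    filter_upwards [hA] with j h1 using h1.compl
  bot_mem' := by
    refine Eventually.of_forall (fun j => ?_)
    have := good_AJ (j := j) (J := ∅) (fun h => h)
    have h2 : AJ ∅ = (⊥ : Set (ℕ → Bool)) := by ext x; simp [AJ]
    rwa [h2] at this

lemma mem_B0 {A : Set (ℕ → Bool)} : A ∈ B0 ↔ ∀ᶠ j in UU, Good j A := Iff.rfl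

lemma clopen_mem_B0 {C : Set (ℕ → Bool)} (hC : IsClopen C) : C ∈ B0 := by
  obtain ⟨N, hN⟩ := dep_of_isClopen hC
  rw [mem_B0]
  refine Filter.Eventually.filter_mono UU_le ?_
  filter_upwards [l_strictMono.tendsto_atTop.eventually_ge_atTop N] with j hj
  exact good_of_dep hN hj

lemma AJ_mem_B0 {J : Set ℕ} (hJ : J ∉ UU) : AJ J ∈ B0 := by
  rw [mem_B0]
  have : Jᶜ ∈ hyperfilter ℕ := Ultrafilter.compl_mem_iff_notMem.mpr hJ
  exact Filter.mem_of_superset this (fun j hj => good_AJ hj)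

lemma half_pow_mono {a b : ℕ} (ha : 1 ≤ a) (hab : a ≤ b) :
    (b : ℝ) * (1/2 : ℝ) ^ b ≤ (a : ℝ) * (1/2 : ℝ) ^ a := by
  induction b, hab using Nat.le_induction with
  | base => exact le_rfl
  | succ n hn ih =>
    refine le_trans ?_ ih
    rw [pow_succ]
    have h1 : (1 : ℝ) ≤ n := by exact_mod_cast ha.trans hn
    have h2 : (0 : ℝ) < (1/2 : ℝ) ^ n := by positivity
    push_cast
    nlinarith

/-- The key numerical fact. -/
lemma eventually_small {ε : ℝ} (hε : 0 < ε) :
    ∀ᶠ j in atTop, (l (j+1) : ℝ) * (2 * (1/2 : ℝ) ^ (l (j+1))) ≤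
      ε * (1/2 : ℝ) ^ (l j + 1) / (l j) := by
  have hlim : Tendsto (fun n : ℕ => (n : ℝ) * (1/2 : ℝ) ^ n) atTop (𝓝 0) :=
    tendsto_self_mul_const_pow_of_lt_one (by norm_num) (by norm_num)
  have h1 := (hlim.comp l_strictMono.tendsto_atTop).eventually (eventually_le_nhds hε)
  filter_upwards [h1, l_strictMono.tendsto_atTop.eventually_ge_atTop 4] with j hj hj4
  simp only [Function.comp] at hj
  rw [l_succ]
  generalize l j = x at hj hj4
  have h3 : 3 * x + 4 ≤ 2 ^ x := by
    induction x, hj4 using Nat.le_induction with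
    | base => norm_num
    | succ n hn ih =>
      have : 3 * n + 4 ≤ 2 ^ n := by
        clear hj ih
        induction n, hn using Nat.le_induction with
        | base => norm_num
        | succ k hk ih' => rw [pow_succ]; omega
      rw [pow_succ]; omega
  have h4 : (1/2 : ℝ) ^ (2 ^ x) ≤ (1/2 : ℝ) ^ (3 * x + 4) :=
    pow_le_pow_of_le_one (by norm_num) (by norm_num) h3
  have hxpos : (0 : ℝ) < x := by exact_mod_cast (by omega : 0 < x)
  rw [le_div_iff₀ hxpos]
  push_cast
  have h5 : (2:ℝ) ^ x * (2 * (1/2 : ℝ) ^ (2 ^ x)) ≤ (2:ℝ) ^ x * (2 * (1/2 : ℝ) ^ (3 * x + 4)) := by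
    have : (0:ℝ) < (2:ℝ) ^ x := by positivity
    nlinarith
  have h6 : (2:ℝ) ^ x * (2 * (1/2 : ℝ) ^ (3 * x + 4)) = (1/8) * ((1/2:ℝ) ^ x * (1/2:ℝ) ^ x) := by
    have e1 : (2:ℝ) ^ x * (1/2:ℝ) ^ x = 1 := by rw [← mul_pow]; norm_num
    have e2 : (1/2 : ℝ) ^ (3 * x + 4) = (1/2:ℝ)^x * (1/2:ℝ)^x * (1/2:ℝ)^x * (1/16) := by
      rw [pow_add, pow_mul']; ring
    rw [e2]
    calc (2:ℝ) ^ x * (2 * ((1/2:ℝ)^x * (1/2:ℝ)^x * (1/2:ℝ)^x * (1/16)))
        = ((2:ℝ) ^ x * (1/2:ℝ) ^ x) * ((1/8) * ((1/2:ℝ) ^ x * (1/2:ℝ) ^ x)) := by ring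
      _ = _ := by rw [e1, one_mul]
  have h7 : (0:ℝ) < (1/2:ℝ) ^ x := by positivity
  have h8 : (1/2:ℝ) ^ (x+1) = (1/2:ℝ)^x * (1/2) := pow_succ _ _
  rw [h8]
  calc (2:ℝ) ^ x * (2 * (1/2 : ℝ) ^ (2 ^ x)) * x
      ≤ (1/8) * ((1/2:ℝ) ^ x * (1/2:ℝ) ^ x) * x := by
        rw [← h6]; exact mul_le_mul_of_nonneg_right h5 hxpos.le
    _ = (1/8) * (x * (1/2:ℝ)^x) * (1/2:ℝ)^x := by ring
    _ ≤ (1/8) * ε * (1/2:ℝ)^x := by
        refine mul_le_mul_of_nonneg_right ?_ h7.le
        linarith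
    _ ≤ ε * ((1/2:ℝ)^x * (1/2)) := by nlinarith [mul_pos hε h7]

lemma propertyT_B0 : PropertyT B0 := by
  intro F hF hFB ε hε
  have h1 : ∀ᶠ j in UU, ∀ A ∈ F, Good j A := (hF.eventually_all).mpr hFB
  have h2 : ∀ᶠ j in UU, (l (j+1) : ℝ) * (2 * (1/2 : ℝ) ^ (l (j+1))) ≤
      ε * (1/2 : ℝ) ^ (l j + 1) / (l j) := (eventually_small hε).filter_mono UU_le
  obtain ⟨j, hj1, hj2⟩ := (h1.and h2).exists
  have hlj := two_le_l j
  refine ⟨l j, by omega, ?_⟩
  rintro A hA U hU
  obtain ⟨s, rfl⟩ := (isAtomOf_alg_iff _ _).mp hU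
  obtain ⟨g1, J, hjJ, g2⟩ := hj1 A hA
  have hAm : MeasurableSet A := (hj1 A hA).measurableSet
  by_cases hs : s ∈ Z0 (l j)
  · -- the atom around zero
    have hcyl : cyl (l j) s = Z0 (l j) := by
      ext x
      exact forall₂_congr (fun k hk => by rw [hs k hk])
    rw [hcyl]
    set D := AJ J ∩ Z0 (l j) with hD
    have hDm : MeasurableSet D := (measurableSet_AJ J).inter (measurableSet_cyl _ _)
    have hljpos : (0 : ℝ) < l j := by exact_mod_cast (by omega : 0 < l j)
    have hl1pos : (1 : ℝ) ≤ l (j+1) := by exact_mod_cast (by have := two_le_l (j+1); omega : 1 ≤ l (j+1))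
    -- measure bound
    have hDsub : D ⊆ Z0 (l (j+1) - 2) := by
      rintro x ⟨⟨i, hi, hx⟩, hx'⟩
      have hij : j < i := by
        rcases lt_trichotomy i j with h | h | h
        · exfalso
          exact Y_inter_Z0 (by have := l_lt_add_two h; omega) hx hx'
        · exact absurd (h ▸ hi) hjJ
        · exact h
      refine Y_sub_Z0 ?_ hx
      have := l_strictMono.monotone (show j + 1 ≤ i from hij)
      have := two_le_l (j+1)
      omega
    have hDlam : lam.real D ≤ 2 * (1/2 : ℝ) ^ (l (j+1)) := lamReal_tail hDsub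
    have hDphi : ∀ m : ℕ, l j < m → m * phi m D ≤ (l (j+1) : ℝ) * (2 * (1/2 : ℝ) ^ (l (j+1))) := by
      intro m hm
      set J0 : Set ℕ := {i | i ∈ J ∧ j < i ∧ l i ≤ m} with hJ0
      set J1 : Set ℕ := {i | i ∈ J ∧ j < i ∧ m < l i} with hJ1
      have hDeq : D = AJ J0 ∪ AJ J1 := by
        ext x
        constructor
        · rintro ⟨⟨i, hi, hx⟩, hx'⟩
          have hij : j < i := by
            rcases lt_trichotomy i j with h | h | h
            · exfalso
              exact Y_inter_Z0 (by have := l_lt_add_two h; omega) hx hx'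
            · exact absurd (h ▸ hi) hjJ
            · exact h
          rcases le_or_gt (l i) m with h | h
          · exact Or.inl ⟨i, ⟨hi, hij, h⟩, hx⟩
          · exact Or.inr ⟨i, ⟨hi, hij, h⟩, hx⟩
        · rintro (⟨i, ⟨hi, hij, _⟩, hx⟩ | ⟨i, ⟨hi, hij, _⟩, hx⟩)
          · exact ⟨⟨i, hi, hx⟩, Y_sub_Z0 (l_lt_add_two hij) hx⟩
          · exact ⟨⟨i, hi, hx⟩, Y_sub_Z0 (l_lt_add_two hij) hx⟩
      have hdisj : Disjoint (AJ J0) (AJ J1) := by
        refine Set.disjoint_left.mpr ?_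
        rintro x ⟨i, hi, hx⟩ ⟨i', hi', hx'⟩
        have := Y_disj hx hx'
        subst this
        have h1 := hi.2.2
        have h2 := hi'.2.2
        omega
      have hdd : dd m D = dd m (AJ J1) := by
        rw [hDeq, dd_union (measurableSet_AJ J1) hdisj]
        have : dd m (AJ J0) = 0 := by
          unfold dd Measure.real
          rw [AJ_bal (fun i hi => hi.2.2), sub_self]
        rw [this, zero_add]
      have hex : ∃ i, j < i ∧ m < l i := by
        obtain ⟨i, hi⟩ := (l_strictMono.tendsto_atTop.eventually_gt_atTop m).and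
          (eventually_gt_atTop j) |>.exists
        exact ⟨i, hi.2, hi.1⟩
      classical
      set i0 := Nat.find hex with hi0
      have hi0s := Nat.find_spec hex
      rw [← hi0] at hi0s
      have hsub1 : AJ J1 ⊆ Z0 (l i0 - 2) :=
        AJ_tail (fun i hi => Nat.find_min' hex ⟨hi.2.1, hi.2.2⟩)
      have hphi : phi m D ≤ 2 * (1/2 : ℝ) ^ (l i0) := by
        rw [phi_eq, hdd, ← phi_eq]
        exact (phi_le _ _).trans (lamReal_tail hsub1)
      have hmono : (l i0 : ℝ) * (1/2 : ℝ) ^ (l i0) ≤ (l (j+1) : ℝ) * (1/2 : ℝ) ^ (l (j+1)) :=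
        half_pow_mono (by have := two_le_l (j+1); omega)
          (l_strictMono.monotone (show j + 1 ≤ i0 from hi0s.1))
      have hm' : (m : ℝ) ≤ l i0 := by exact_mod_cast hi0s.2.le
      have hp0 : (0:ℝ) ≤ (1/2 : ℝ) ^ (l i0) := by positivity
      calc (m:ℝ) * phi m D ≤ (l i0 : ℝ) * (2 * (1/2 : ℝ) ^ (l i0)) :=
            mul_le_mul hm' hphi (phi_nonneg _ _) (Nat.cast_nonneg _)
        _ = 2 * ((l i0 : ℝ) * (1/2 : ℝ) ^ (l i0)) := by ring
        _ ≤ 2 * ((l (j+1) : ℝ) * (1/2 : ℝ) ^ (l (j+1))) := by linarith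
        _ = _ := by ring
    have hpos : (0:ℝ) < (1/2 : ℝ) ^ (l j + 1) := by positivity
    have hfin : ε * (1/2 : ℝ) ^ (l j + 1) / (l j) ≤ ε * (1/2 : ℝ) ^ (l j + 1) := by
      refine div_le_self (by positivity) ?_
      exact_mod_cast (by omega : 1 ≤ l j)
    have hpow : (0:ℝ) ≤ (1/2 : ℝ) ^ (l (j+1)) := by positivity
    have hlamD' : lam.real D ≤ ε * lam.real (Z0 (l j)) / (l j) := by
      rw [lamReal_Z0]
      refine hDlam.trans (le_trans ?_ hj2)
      nlinarith
    rcases g2 with g2 | g2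
    · have e1 : A ∩ Z0 (l j) = D := by
        ext x
        constructor
        · rintro ⟨hx, hx'⟩; exact ⟨(g2 x hx').mp hx, hx'⟩
        · rintro ⟨hx, hx'⟩; exact ⟨(g2 x hx').mpr hx, hx'⟩
      rw [e1]
      refine ⟨(min_le_left _ _).trans hlamD', fun m hm => ?_⟩
      rw [lamReal_Z0]
      exact ((hDphi m hm).trans hj2).trans hfin
    · have e1 : Z0 (l j) \ A = D := by
        ext x
        constructor
        · rintro ⟨hx, hx'⟩
          refine ⟨?_, hx⟩
          by_contra h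
          exact hx' ((g2 x hx).mpr h)
        · rintro ⟨hx, hx'⟩
          exact ⟨hx', fun h => (g2 x hx').mp h hx⟩
      rw [e1]
      refine ⟨(min_le_right _ _).trans hlamD', fun m hm => ?_⟩
      have e2 : phi m (A ∩ Z0 (l j)) = phi m D := by
        rw [← e1, Z0_eq_cyl, phi_diff_cyl _ hm hAm]
      rw [lamReal_Z0, e2]
      exact ((hDphi m hm).trans hj2).trans hfin
  · -- other atoms
    have hdich : A ∩ cyl (l j) s = cyl (l j) s ∨ A ∩ cyl (l j) s = ∅ := by
      by_cases hsA : s ∈ A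
      · left
        refine inter_eq_right.mpr (fun x hx => ?_)
        exact (g1 s x (fun k hk => (hx k hk).symm) hs).mp hsA
      · right
        refine eq_empty_iff_forall_notMem.mpr ?_
        rintro x ⟨hxA, hx⟩
        exact hsA ((g1 s x (fun k hk => (hx k hk).symm) hs).mpr hxA)
    have hnn : 0 ≤ ε * lam.real (cyl (l j) s) := mul_nonneg hε.le measureReal_nonneg
    have hnn' : 0 ≤ ε * lam.real (cyl (l j) s) / (l j) := div_nonneg hnn (Nat.cast_nonneg _)
    rcases hdich with h | h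
    · refine ⟨(min_le_right _ _).trans ?_, fun m hm => ?_⟩
      · have : cyl (l j) s \ A = ∅ := by
          rw [Set.sdiff_eq_empty]
          exact inter_eq_right.mp h
        rw [this, measureReal_empty]; exact hnn'
      · rw [h, phi_eq_zero (cyl_bal _ _ hm), mul_zero]; exact hnn
    · refine ⟨(min_le_left _ _).trans ?_, fun m hm => ?_⟩
      · rw [h, measureReal_empty]; exact hnn'
      · rw [h]
        have : phi m ∅ = 0 := by simp [phi]
        rw [this, mul_zero]; exact hnn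

/-! ### The measures -/

/-- Infinite sets contain infinite sets outside the ultrafilter. -/
lemma exists_infinite_subset {I : Set ℕ} (hI : I.Infinite) :
    ∃ J ⊆ I, J.Infinite ∧ J ∉ UU := by
  classical
  have := hI.to_subtype
  let e : ℕ ↪ I := Infinite.natEmbedding I
  let f : ℕ → ℕ := fun n => (e n : ℕ)
  have hf : Function.Injective f := fun a b h => e.injective (Subtype.ext h)
  have hsub : ∀ n, f n ∈ I := fun n => (e n).2
  have hinf0 : (f '' {n | Even n}).Infinite :=
    Set.Infinite.image hf.injOn (Set.infinite_of_not_bddAbove (by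
      rintro ⟨b, hb⟩
      have := hb (show 2 * (b + 1) ∈ {n | Even n} from ⟨b+1, by ring⟩)
      omega))
  have hinf1 : (f '' {n | ¬ Even n}).Infinite :=
    Set.Infinite.image hf.injOn (Set.infinite_of_not_bddAbove (by
      rintro ⟨b, hb⟩
      have := hb (show 2 * b + 1 ∈ {n | ¬ Even n} by
        simp)
      omega))
  by_cases h : f '' {n | Even n} ∈ UU
  · refine ⟨f '' {n | ¬ Even n}, ?_, hinf1, ?_⟩
    · rintro _ ⟨n, _, rfl⟩; exact hsub n
    · intro h'
      have h2 := Filter.inter_mem h h'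
      have h3 : f '' {n | Even n} ∩ f '' {n | ¬ Even n} = ∅ := by
        rw [← Set.image_inter hf]
        have : {n : ℕ | Even n} ∩ {n | ¬ Even n} = ∅ := by
          ext n; simp
        rw [this, Set.image_empty]
      rw [h3] at h2
      exact (hyperfilter ℕ).neBot.ne (Filter.empty_mem_iff_bot.mp h2)
  · refine ⟨f '' {n | Even n}, ?_, hinf0, h⟩
    rintro _ ⟨n, _, rfl⟩; exact hsub n

lemma key_conv {B : BooleanSubalgebra (Set (ℕ → Bool))} (hT : PropertyT B)
    (hmeas : ∀ A ∈ B, MeasurableSet A) (hB : B0 ≤ B) {A : Set (ℕ → Bool)} (hA : A ∈ B) :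
    Tendsto (fun i => (2:ℝ) ^ (l i + 2) * dd (l (i+1)) (A ∩ Y i)) atTop (𝓝 0) := by
  by_contra hcon
  rw [Metric.tendsto_atTop] at hcon
  push Not at hcon
  obtain ⟨δ, hδ, hδ2⟩ := hcon
  -- the set of bad indices
  have hlim : Tendsto (fun n : ℕ => (n : ℝ) * (1/2 : ℝ) ^ n) atTop (𝓝 0) :=
    tendsto_self_mul_const_pow_of_lt_one (by norm_num) (by norm_num)
  have hsmall : ∀ᶠ i in atTop, (l (i+1) : ℝ) * (1/2 : ℝ) ^ (l (i+1)) ≤ δ / 32 :=
    ((hlim.comp (l_strictMono.tendsto_atTop.comp (tendsto_add_atTop_nat 1))).eventually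
      (eventually_le_nhds (show (0:ℝ) < δ / 32 by positivity)))
  obtain ⟨i₀, hi₀⟩ := eventually_atTop.mp hsmall
  let I : Set ℕ := {i | i₀ ≤ i ∧ δ ≤ |(2:ℝ) ^ (l i + 2) * dd (l (i+1)) (A ∩ Y i)|}
  have hI : I.Infinite := by
    refine Set.infinite_of_not_bddAbove ?_
    rintro ⟨b, hb⟩
    obtain ⟨n, hn, hn2⟩ := hδ2 (max i₀ (b+1))
    rw [dist_zero_right, Real.norm_eq_abs] at hn2
    have := hb (show n ∈ I from ⟨(le_max_left _ _).trans hn, hn2⟩)
    have := (le_max_right _ _).trans hn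
    omega
  obtain ⟨J, hJI, hJinf, hJU⟩ := exists_infinite_subset hI
  have hAJ : AJ J ∈ B := hB (AJ_mem_B0 hJU)
  have hAA : A ∩ AJ J ∈ B := BooleanSubalgebra.inf_mem hA hAJ
  obtain ⟨n, hn1, hn⟩ := hT {A ∩ AJ J} (Set.finite_singleton _)
    (by rintro _ rfl; exact hAA) (δ / 16) (by positivity)
  have hn' := (hn _ rfl (cyl n (fun _ => false)) ((isAtomOf_alg_iff _ _).mpr ⟨_, rfl⟩)).2
  rw [← Z0_eq_cyl] at hn'
  -- the least index in J beyond n
  have hex : ∃ i, i ∈ J ∧ n + 2 ≤ l i := by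
    obtain ⟨i, hi⟩ := (l_strictMono.tendsto_atTop.eventually_ge_atTop (n+2)).and_frequently
      (Nat.frequently_atTop_iff_infinite.mpr hJinf) |>.exists
    exact ⟨i, hi.2, hi.1⟩
  classical
  set i := Nat.find hex with hidef
  have hi := Nat.find_spec hex
  rw [← hidef] at hi
  have hiI := hJI hi.1
  have hli := l_add_two_le i
  have hli2 := two_le_l i
  have hm := hn' (l (i+1)) (by omega)
  -- decomposition
  let J1 : Set ℕ := {k | k ∈ J ∧ i < k}
  have hdec : A ∩ AJ J ∩ Z0 n = (A ∩ Y i) ∪ (A ∩ AJ J1) := by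
    ext x
    constructor
    · rintro ⟨⟨hxA, k, hk, hx⟩, hx'⟩
      rcases lt_trichotomy k i with h | h | h
      · exfalso
        have h2 : ¬ (k ∈ J ∧ n + 2 ≤ l k) := Nat.find_min hex h
        have h3 : l k ≤ n + 1 := by
          by_contra h4
          exact h2 ⟨hk, by omega⟩
        exact Y_inter_Z0 h3 hx hx'
      · left; exact ⟨hxA, h ▸ hx⟩
      · right; exact ⟨hxA, k, ⟨hk, h⟩, hx⟩
    · rintro (⟨hxA, hx⟩ | ⟨hxA, k, ⟨hk, hik⟩, hx⟩)
      · exact ⟨⟨hxA, i, hi.1, hx⟩, Y_sub_Z0 hi.2 hx⟩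
      · refine ⟨⟨hxA, k, hk, hx⟩, Y_sub_Z0 ?_ hx⟩
        have := l_strictMono hik
        omega
  have hdisj : Disjoint (A ∩ Y i) (A ∩ AJ J1) := by
    refine Set.disjoint_left.mpr ?_
    rintro x ⟨_, hx⟩ ⟨_, k, hk, hx'⟩
    have := Y_disj hx hx'
    subst this
    exact lt_irrefl _ hk.2
  have hAm := hmeas A hA
  have htail : lam.real (A ∩ AJ J1) ≤ 2 * (1/2 : ℝ) ^ (l (i+1)) := by
    refine lamReal_tail (i₀ := i+1) (inter_subset_right.trans (AJ_tail ?_))
    intro k hk; exact hk.2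
  have hdd : dd (l (i+1)) (A ∩ AJ J ∩ Z0 n)
      = dd (l (i+1)) (A ∩ Y i) + dd (l (i+1)) (A ∩ AJ J1) := by
    rw [hdec, dd_union (hAm.inter (measurableSet_AJ J1)) hdisj]
  have h1 : |dd (l (i+1)) (A ∩ Y i)| ≤ phi (l (i+1)) (A ∩ AJ J ∩ Z0 n)
      + 2 * (1/2 : ℝ) ^ (l (i+1)) := by
    have h2 : |dd (l (i+1)) (A ∩ AJ J1)| ≤ 2 * (1/2 : ℝ) ^ (l (i+1)) :=
      (phi_le (l (i+1)) (A ∩ AJ J1)).trans htail
    rw [phi_eq, hdd]
    have h3 : |dd (l (i+1)) (A ∩ Y i)| ≤
        |dd (l (i+1)) (A ∩ Y i) + dd (l (i+1)) (A ∩ AJ J1)| + |dd (l (i+1)) (A ∩ AJ J1)| := by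
      have := abs_sub (dd (l (i+1)) (A ∩ Y i) + dd (l (i+1)) (A ∩ AJ J1))
        (dd (l (i+1)) (A ∩ AJ J1))
      rwa [add_sub_cancel_right] at this
    linarith
  have hZ1 : lam.real (Z0 n) ≤ 1 := by
    rw [lamReal_Z0]; exact pow_le_one₀ (by norm_num) (by norm_num)
  have hm2 : (l (i+1) : ℝ) * phi (l (i+1)) (A ∩ AJ J ∩ Z0 n) ≤ δ / 16 := by
    refine hm.trans ?_
    nlinarith
  have hm3 := hi₀ i hiI.1
  have hδi := hiI.2
  rw [abs_mul, abs_of_pos (by positivity)] at hδi
  have hl1 : ((l (i+1) : ℕ) : ℝ) = (2:ℝ) ^ (l i) := by rw [l_succ]; push_cast; rfl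
  have h5 : (l (i+1) : ℝ) * |dd (l (i+1)) (A ∩ Y i)| ≤ δ / 16 + 2 * (δ / 32) := by
    have hlpos : (0:ℝ) ≤ l (i+1) := Nat.cast_nonneg _
    calc (l (i+1) : ℝ) * |dd (l (i+1)) (A ∩ Y i)|
        ≤ (l (i+1) : ℝ) * (phi (l (i+1)) (A ∩ AJ J ∩ Z0 n) + 2 * (1/2 : ℝ) ^ (l (i+1))) :=
          mul_le_mul_of_nonneg_left h1 hlpos
      _ = (l (i+1) : ℝ) * phi (l (i+1)) (A ∩ AJ J ∩ Z0 n)
          + 2 * ((l (i+1) : ℝ) * (1/2 : ℝ) ^ (l (i+1))) := by ring
      _ ≤ _ := by linarith
  rw [hl1] at h5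
  have h6 : (2:ℝ) ^ (l i + 2) = 4 * 2 ^ (l i) := by rw [pow_add]; ring
  rw [h6] at hδi
  linarith


/-! ### Functionals on `C(St(B))` -/

section Functionals

variable {B : BooleanSubalgebra (Set (ℕ → Bool))}

open Classical in
/-- The point evaluation. -/
noncomputable def ev (B : BooleanSubalgebra (Set (ℕ → Bool))) (x : ℕ → Bool) : StoneSpace B :=
  show BoundedLatticeHom B Bool from
  { toFun := fun A => decide (x ∈ (A : Set (ℕ → Bool)))
    map_sup' := by
      intro A C
      by_cases h1 : x ∈ (A : Set (ℕ → Bool)) <;> by_cases h2 : x ∈ (C : Set (ℕ → Bool)) <;>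
        simp [h1, h2]
    map_inf' := by
      intro A C
      by_cases h1 : x ∈ (A : Set (ℕ → Bool)) <;> by_cases h2 : x ∈ (C : Set (ℕ → Bool)) <;>
        simp [h1, h2]
    map_top' := by simp
    map_bot' := by simp }

open Classical in
lemma ev_val (x : ℕ → Bool) (A : B) : (ev B x).val A = decide (x ∈ (A : Set (ℕ → Bool))) := rfl

open Classical in
lemma chi_ev (x : ℕ → Bool) (A : B) :
    chi A (ev B x) = Set.indicator (A : Set (ℕ → Bool)) (fun _ => (1:ℝ)) x := by
  rw [chi_apply, ev_val]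
  by_cases h : x ∈ (A : Set (ℕ → Bool)) <;> simp [h]

lemma measurable_comp_ev (hmeas : ∀ A ∈ B, MeasurableSet A) (f : C(StoneSpace B, ℝ)) :
    Measurable (fun x => f (ev B x)) := by
  have hspan : ∀ g ∈ Submodule.span ℝ (Set.range (chi (α := B))),
      Measurable (fun x => g (ev B x)) := by
    intro g hg
    induction hg using Submodule.span_induction with
    | mem g hg =>
      obtain ⟨A, rfl⟩ := hg
      have : (fun x => chi A (ev B x)) = Set.indicator (A : Set (ℕ → Bool)) (fun _ => (1:ℝ)) := by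
        funext x; exact chi_ev x A
      rw [this]
      exact measurable_const.indicator (hmeas A A.2)
    | zero => exact measurable_const
    | add g h _ _ hg hh => exact hg.add hh
    | smul c g _ hg => exact hg.const_mul c
  have hf : f ∈ (Submodule.span ℝ (Set.range (chi (α := B)))).topologicalClosure := by
    rw [span_chi_dense]; trivial
  rw [← SetLike.mem_coe, Submodule.topologicalClosure_coe, mem_closure_iff_seq_limit] at hf
  obtain ⟨g, hg, hlim⟩ := hf
  refine measurable_of_tendsto_metrizable (fun n => hspan (g n) (hg n)) ?_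
  rw [tendsto_pi_nhds]
  intro x
  have hcont : Continuous (fun h : C(StoneSpace B, ℝ) => h (ev B x)) :=
    continuous_eval_const (ev B x)
  exact (hcont.tendsto f).comp hlim

/-- Integration over a set, as a functional on `C(St(B))`. -/
noncomputable def II (hmeas : ∀ A ∈ B, MeasurableSet A) (Z : Set (ℕ → Bool)) :
    StrongDual ℝ C(StoneSpace B, ℝ) :=
  LinearMap.mkContinuous
    { toFun := fun f => ∫ x in Z, f (ev B x) ∂lam
      map_add' := by
        intro f g
        refine integral_add ?_ ?_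
        · exact Integrable.of_bound (measurable_comp_ev hmeas f).aestronglyMeasurable ‖f‖
            (Eventually.of_forall (fun x => f.norm_coe_le_norm _))
        · exact Integrable.of_bound (measurable_comp_ev hmeas g).aestronglyMeasurable ‖g‖
            (Eventually.of_forall (fun x => g.norm_coe_le_norm _))
      map_smul' := by
        intro c f
        exact integral_const_mul c _ }
    (lam.real Z)
    (by
      intro f
      have h := norm_integral_le_of_norm_le_const (μ := lam.restrict Z) (f := fun x => f (ev B x))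
        (C := ‖f‖) (Eventually.of_forall (fun x => f.norm_coe_le_norm _))
      simp only [LinearMap.coe_mk, AddHom.coe_mk]
      refine h.trans ?_
      rw [mul_comm, measureReal_restrict_apply_univ])

lemma II_apply (hmeas : ∀ A ∈ B, MeasurableSet A) (Z : Set (ℕ → Bool))
    (f : C(StoneSpace B, ℝ)) : II hmeas Z f = ∫ x in Z, f (ev B x) ∂lam := rfl

lemma II_bound (hmeas : ∀ A ∈ B, MeasurableSet A) (Z : Set (ℕ → Bool))
    (f : C(StoneSpace B, ℝ)) : |II hmeas Z f| ≤ lam.real Z * ‖f‖ := by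
  have h := (II hmeas Z).le_opNorm f
  have h2 : ‖II hmeas Z‖ ≤ lam.real Z := LinearMap.mkContinuous_norm_le _ measureReal_nonneg _
  rw [Real.norm_eq_abs] at h
  exact h.trans (mul_le_mul_of_nonneg_right h2 (norm_nonneg _))

lemma II_chi (hmeas : ∀ A ∈ B, MeasurableSet A) {Z : Set (ℕ → Bool)}
    (A : B) : II hmeas Z (chi A) = lam.real ((A : Set (ℕ → Bool)) ∩ Z) := by
  rw [II_apply]
  have : (fun x => chi A (ev B x)) = Set.indicator (A : Set (ℕ → Bool)) (fun _ => (1:ℝ)) := by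
    funext x; exact chi_ev x A
  rw [this, integral_indicator_const _ (hmeas A A.2), measureReal_restrict_apply (hmeas A A.2),
    smul_eq_mul, mul_one]

/-- The half `Z_i` (for `b = false`) or `Z_i'` (for `b = true`) of `Y i`. -/
def ZZ (i : ℕ) (b : Bool) : Set (ℕ → Bool) := Y i ∩ V (l (i+1)) b

lemma lamReal_ZZ (i : ℕ) (b : Bool) : lam.real (ZZ i b) = (1/2 : ℝ) ^ (l i + 2) := by
  have h1 := l_add_two_le i
  have h2 := two_le_l i
  have : ZZ i b = box (insert (l (i+1)) (Finset.range (l i + 1)))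
      (fun k => if k < l i - 1 then false else if k = l i - 1 then true else b) := by
    ext x
    simp only [ZZ, Y, V, box, mem_inter_iff, mem_ofPred_eq, Finset.mem_insert, Finset.mem_range]
    constructor
    · rintro ⟨⟨a1, a2, a3⟩, a4⟩ k hk
      by_cases c1 : k < l i - 1
      · rw [if_pos c1]; exact a1 k c1
      · rw [if_neg c1]
        by_cases c2 : k = l i - 1
        · rw [if_pos c2, c2]; exact a2
        · rw [if_neg c2]
          have : k = l i ∨ k = l (i+1) := by omega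
          rcases this with h | h
          · rw [h, a3, a4]
          · rw [h, a4]
    · intro h
      have e1 := h (l i) (by omega)
      have e2 := h (l (i+1)) (by omega)
      rw [if_neg (by omega), if_neg (by omega)] at e1 e2
      refine ⟨⟨fun k hk => ?_, ?_, ?_⟩, e2⟩
      · have := h k (by omega)
        rwa [if_pos hk] at this
      · have := h (l i - 1) (by omega)
        rwa [if_neg (by omega), if_pos rfl] at this
      · rw [e1, e2]
  rw [this, lamReal_box, Finset.card_insert_of_notMem, Finset.card_range]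
  simp only [Finset.mem_range]; omega

/-- The normalised difference measures. -/
noncomputable def mu (hmeas : ∀ A ∈ B, MeasurableSet A) (i : ℕ) :
    StrongDual ℝ C(StoneSpace B, ℝ) :=
  (2:ℝ) ^ (l i + 2) • (II hmeas (ZZ i false) - II hmeas (ZZ i true))

lemma mu_chi (hmeas : ∀ A ∈ B, MeasurableSet A) (i : ℕ) (A : B) :
    mu hmeas i (chi A) = (2:ℝ) ^ (l i + 2) * dd (l (i+1)) ((A : Set (ℕ → Bool)) ∩ Y i) := by
  unfold mu dd
  rw [_root_.smul_apply, _root_.sub_apply, II_chi, II_chi, smul_eq_mul]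
  unfold ZZ
  rw [← inter_assoc, ← inter_assoc]

lemma mu_bound (hmeas : ∀ A ∈ B, MeasurableSet A) (i : ℕ) (f : C(StoneSpace B, ℝ)) :
    |mu hmeas i f| ≤ 2 * ‖f‖ := by
  unfold mu
  rw [_root_.smul_apply, _root_.sub_apply, smul_eq_mul, abs_mul,
    abs_of_pos (by positivity)]
  have h1 := II_bound hmeas (ZZ i false) f
  have h2 := II_bound hmeas (ZZ i true) f
  rw [lamReal_ZZ] at h1 h2
  have h3 : |II hmeas (ZZ i false) f - II hmeas (ZZ i true) f|
      ≤ 2 * ((1/2 : ℝ) ^ (l i + 2) * ‖f‖) := by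
    have := abs_sub (II hmeas (ZZ i false) f) (II hmeas (ZZ i true) f)
    linarith
  have h4 : (2:ℝ) ^ (l i + 2) * (1/2 : ℝ) ^ (l i + 2) = 1 := by
    rw [← mul_pow]; norm_num
  calc (2:ℝ) ^ (l i + 2) * |II hmeas (ZZ i false) f - II hmeas (ZZ i true) f|
      ≤ (2:ℝ) ^ (l i + 2) * (2 * ((1/2 : ℝ) ^ (l i + 2) * ‖f‖)) :=
        mul_le_mul_of_nonneg_left h3 (by positivity)
    _ = ((2:ℝ) ^ (l i + 2) * (1/2 : ℝ) ^ (l i + 2)) * (2 * ‖f‖) := by ring
    _ = 2 * ‖f‖ := by rw [h4, one_mul]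

lemma mu_tendsto (hT : PropertyT B) (hmeas : ∀ A ∈ B, MeasurableSet A) (hB : B0 ≤ B)
    (f : C(StoneSpace B, ℝ)) : Tendsto (fun i => mu hmeas i f) atTop (𝓝 0) := by
  have hspan : ∀ g ∈ Submodule.span ℝ (Set.range (chi (α := B))),
      Tendsto (fun i => mu hmeas i g) atTop (𝓝 0) := by
    intro g hg
    induction hg using Submodule.span_induction with
    | mem g hg =>
      obtain ⟨A, rfl⟩ := hg
      simp only [mu_chi]
      exact key_conv hT hmeas hB A.2
    | zero => simp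
    | add g h _ _ hg hh =>
      simp only [map_add]
      simpa using hg.add hh
    | smul c g _ hg =>
      simp only [map_smul, smul_eq_mul]
      simpa using hg.const_mul c
  have hf : f ∈ (Submodule.span ℝ (Set.range (chi (α := B)))).topologicalClosure := by
    rw [span_chi_dense]; trivial
  rw [← SetLike.mem_coe, Submodule.topologicalClosure_coe, Metric.mem_closure_iff] at hf
  rw [Metric.tendsto_atTop]
  intro ε hε
  obtain ⟨g, hg, hfg⟩ := hf (ε / 4) (by positivity)
  obtain ⟨N, hN⟩ := (Metric.tendsto_atTop.mp (hspan g hg)) (ε / 2) (by positivity)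
  refine ⟨N, fun n hn => ?_⟩
  have h1 := hN n hn
  rw [dist_zero_right, Real.norm_eq_abs] at h1 ⊢
  have h2 := mu_bound hmeas n (f - g)
  rw [map_sub] at h2
  rw [dist_eq_norm] at hfg
  have h3 : |mu hmeas n f| ≤ |mu hmeas n f - mu hmeas n g| + |mu hmeas n g| := by
    have := abs_add_le (mu hmeas n f - mu hmeas n g) (mu hmeas n g)
    rwa [sub_add_cancel] at this
  linarith

lemma ZZ_mem_B0 (i : ℕ) (b : Bool) : ZZ i b ∈ B0 := by
  rw [mem_B0]
  refine Filter.Eventually.filter_mono UU_le ?_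
  filter_upwards [l_strictMono.tendsto_atTop.eventually_ge_atTop (l (i+1))] with j hj
  refine good_of_dep (N := l (i+1)) (fun x y hxy => ?_) hj
  unfold ZZ V
  simp only [mem_inter_iff, mem_ofPred_eq, Y_dep i x y hxy, hxy _ le_rfl]

/-- The elements of the algebra given by the sets `Z_j`. -/
def zel (hB : B0 ≤ B) (j : ℕ) : B := ⟨ZZ j false, hB (ZZ_mem_B0 j false)⟩

lemma zel_inf (hB : B0 ≤ B) {j k : ℕ} (hjk : j ≠ k) : zel hB j ⊓ zel hB k = ⊥ := by
  refine Subtype.ext ?_
  change ZZ j false ∩ ZZ k false = ∅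
  refine eq_empty_iff_forall_notMem.mpr ?_
  rintro x ⟨hx, hx'⟩
  exact hjk (Y_disj hx.1 hx'.1)

lemma val_bot {α : Type*} [BooleanAlgebra α] (h : StoneSpace α) : h.val ⊥ = false :=
  map_bot (show BoundedLatticeHom α Bool from h)

lemma sum_abs_le (hB : B0 ≤ B) (u : StrongDual ℝ C(StoneSpace B, ℝ)) (s : Finset ℕ) :
    ∑ j ∈ s, |u (chi (zel hB j))| ≤ ‖u‖ := by
  classical
  let c : ℕ → ℝ := fun j => if 0 ≤ u (chi (zel hB j)) then 1 else -1
  have hc : ∀ j, |u (chi (zel hB j))| = c j * u (chi (zel hB j)) := by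
    intro j
    by_cases h : 0 ≤ u (chi (zel hB j))
    · simp only [c, if_pos h, one_mul, abs_of_nonneg h]
    · simp only [c, if_neg h, neg_mul, one_mul]
      exact abs_of_neg (not_le.mp h)
  have hcabs : ∀ j, |c j| = 1 := by
    intro j
    by_cases h : 0 ≤ u (chi (zel hB j))
    · simp [c, if_pos h]
    · simp [c, if_neg h]
  have h1 : ∑ j ∈ s, |u (chi (zel hB j))| = u (∑ j ∈ s, c j • chi (zel hB j)) := by
    rw [map_sum]
    refine Finset.sum_congr rfl (fun j _ => ?_)
    rw [hc j, map_smul, smul_eq_mul]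
  have h2 : ‖∑ j ∈ s, c j • chi (zel hB j)‖ ≤ 1 := by
    rw [ContinuousMap.norm_le _ zero_le_one]
    intro h
    rw [ContinuousMap.sum_apply]
    by_cases hex : ∃ j ∈ s, h.val (zel hB j) = true
    · obtain ⟨j, hj, hjv⟩ := hex
      rw [Finset.sum_eq_single j]
      · rw [ContinuousMap.smul_apply, chi_apply, if_pos hjv, smul_eq_mul, mul_one,
          Real.norm_eq_abs, hcabs]
      · intro k _ hk
        have : h.val (zel hB k) ≠ true := by
          intro hkv
          have h3 := val_inf h (zel hB k) (zel hB j)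
          rw [zel_inf hB hk, val_bot, hkv, hjv] at h3
          exact absurd h3 (by decide)
        rw [ContinuousMap.smul_apply, chi_apply, if_neg this, smul_zero]
      · intro hj'; exact absurd hj hj'
    · push Not at hex
      rw [Finset.sum_eq_zero]
      · simp
      · intro j hj
        rw [ContinuousMap.smul_apply, chi_apply, if_neg (hex j hj), smul_zero]
  rw [h1]
  calc u (∑ j ∈ s, c j • chi (zel hB j)) ≤ ‖u (∑ j ∈ s, c j • chi (zel hB j))‖ :=
        Real.le_norm_self _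
    _ ≤ ‖u‖ * ‖∑ j ∈ s, c j • chi (zel hB j)‖ := u.le_opNorm _
    _ ≤ ‖u‖ * 1 := mul_le_mul_of_nonneg_left h2 (norm_nonneg u)
    _ = ‖u‖ := mul_one _

lemma summable_zel (hB : B0 ≤ B) (u : StrongDual ℝ C(StoneSpace B, ℝ)) :
    Summable (fun j => u (chi (zel hB j))) := by
  refine Summable.of_norm ?_
  exact summable_of_sum_le (fun _ => norm_nonneg _) (sum_abs_le hB u)

/-- The functional on the dual that detects the sequence. -/
noncomputable def GG (hB : B0 ≤ B) : StrongDual ℝ (StrongDual ℝ C(StoneSpace B, ℝ)) :=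
  LinearMap.mkContinuous
    { toFun := fun u : StrongDual ℝ C(StoneSpace B, ℝ) => ∑' j : ℕ, u (chi (zel hB j))
      map_add' := by
        intro u v
        exact (summable_zel hB u).tsum_add (summable_zel hB v)
      map_smul' := by
        intro c u
        exact tsum_mul_left }
    1
    (by
      intro u
      rw [one_mul]
      simp only [LinearMap.coe_mk, AddHom.coe_mk]
      have h1 : Summable (fun j => ‖u (chi (zel hB j))‖) :=
        summable_of_sum_le (fun _ => norm_nonneg _) (sum_abs_le hB u)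
      refine (norm_tsum_le_tsum_norm h1).trans ?_
      exact h1.tsum_le_of_sum_le (sum_abs_le hB u))

lemma GG_mu (hB : B0 ≤ B) (hmeas : ∀ A ∈ B, MeasurableSet A) (i : ℕ) :
    GG hB (mu hmeas i) = 1 := by
  change ∑' j, mu hmeas i (chi (zel hB j)) = 1
  rw [tsum_eq_single i]
  · rw [mu_chi]
    have h1 : ((zel hB i : B) : Set (ℕ → Bool)) ∩ Y i = ZZ i false := by
      change ZZ i false ∩ Y i = ZZ i false
      exact inter_eq_left.mpr inter_subset_left
    rw [h1]
    unfold dd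
    have h2 : ZZ i false ∩ V (l (i+1)) false = ZZ i false :=
      inter_eq_left.mpr inter_subset_right
    have h3 : ZZ i false ∩ V (l (i+1)) true = ∅ := by
      refine eq_empty_iff_forall_notMem.mpr ?_
      rintro x ⟨hx, hx'⟩
      have e1 : x (l (i+1)) = false := hx.2
      have e2 : x (l (i+1)) = true := hx'
      rw [e1] at e2
      exact Bool.noConfusion e2
    rw [h2, h3, measureReal_empty, sub_zero, lamReal_ZZ, ← mul_pow]
    norm_num
  · intro j hj
    rw [mu_chi]
    have h1 : ((zel hB j : B) : Set (ℕ → Bool)) ∩ Y i = ∅ := by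
      change ZZ j false ∩ Y i = ∅
      refine eq_empty_iff_forall_notMem.mpr ?_
      rintro x ⟨hx, hx'⟩
      exact hj (Y_disj hx.1 hx')
    rw [h1]
    simp [dd]

lemma not_grothendieck (hT : PropertyT B) (hmeas : ∀ A ∈ B, MeasurableSet A) (hB : B0 ≤ B) :
    ¬ HasGrothendieckProperty B := by
  intro h
  have h1 := h (fun i => mu hmeas i) 0 (fun f => mu_tendsto hT hmeas hB f) (GG hB)
  simp only [GG_mu, map_zero] at h1
  exact absurd (tendsto_nhds_unique tendsto_const_nhds h1) one_ne_zero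

end Functionals

/-! ### Existence of a maximal algebra -/

lemma borel_eq_pi : borel (ℕ → Bool) = MeasurableSpace.pi := (BorelSpace.measurable_eq).symm

lemma isTAlgebra_B0 : IsTAlgebra B0 := by
  refine ⟨fun A hA => ?_, fun A hA => clopen_mem_B0 hA, propertyT_B0⟩
  obtain ⟨j, hj⟩ := (mem_B0.mp hA).exists
  rw [borel_eq_pi]
  exact hj.measurableSet

lemma exists_maximal : ∃ B : BooleanSubalgebra (Set (ℕ → Bool)), B0 ≤ B ∧ Maximal IsTAlgebra B := by
  refine zorn_le_nonempty₀ {B | IsTAlgebra B} ?_ B0 isTAlgebra_B0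
  intro c hc hchain y hy
  have hdir : ∀ B ∈ c, ∀ C ∈ c, ∃ D ∈ c, B ≤ D ∧ C ≤ D := by
    intro B hB C hC
    rcases hchain.total hB hC with h | h
    · exact ⟨C, hC, h, le_rfl⟩
    · exact ⟨B, hB, le_rfl, h⟩
  let U : BooleanSubalgebra (Set (ℕ → Bool)) :=
    { carrier := {A | ∃ B ∈ c, A ∈ B}
      supClosed' := by
        rintro A ⟨B, hB, hA⟩ A' ⟨B', hB', hA'⟩
        obtain ⟨D, hD, h1, h2⟩ := hdir B hB B' hB'
        exact ⟨D, hD, BooleanSubalgebra.sup_mem (h1 hA) (h2 hA')⟩
      infClosed' := by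
        rintro A ⟨B, hB, hA⟩ A' ⟨B', hB', hA'⟩
        obtain ⟨D, hD, h1, h2⟩ := hdir B hB B' hB'
        exact ⟨D, hD, BooleanSubalgebra.inf_mem (h1 hA) (h2 hA')⟩
      compl_mem' := by
        rintro A ⟨B, hB, hA⟩
        exact ⟨B, hB, BooleanSubalgebra.compl_mem hA⟩
      bot_mem' := ⟨y, hy, BooleanSubalgebra.bot_mem⟩ }
  have hU : ∀ A, A ∈ U ↔ ∃ B ∈ c, A ∈ B := fun A => Iff.rfl
  refine ⟨U, ⟨?_, ?_, ?_⟩, fun B hB A hA => ⟨B, hB, hA⟩⟩
  · rintro A ⟨B, hB, hA⟩
    exact (hc hB).1 A hA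
  · intro A hA
    exact ⟨y, hy, (hc hy).2.1 A hA⟩
  · intro F hF hFU ε hε
    have hfin : ∃ B ∈ c, ∀ A ∈ F, A ∈ B := by
      induction F, hF using Set.Finite.induction_on with
      | empty => exact ⟨y, hy, fun A hA => absurd hA (notMem_empty A)⟩
      | @insert A F _ _ ih =>
        obtain ⟨B, hB, hBF⟩ := ih (fun A' hA' => hFU A' (mem_insert_of_mem _ hA'))
        obtain ⟨C, hC, hAC⟩ := hFU A (mem_insert _ _)
        obtain ⟨D, hD, h1, h2⟩ := hdir B hB C hC
        refine ⟨D, hD, fun A' hA' => ?_⟩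
        rcases hA' with rfl | hA'
        · exact h2 hAC
        · exact h1 (hBF A' hA')
    obtain ⟨B, hB, hBF⟩ := hfin
    exact (hc hB).2.2 F hF hBF ε hε


theorem main : ∃ B : BooleanSubalgebra (Set (ℕ → Bool)),
    Maximal IsTAlgebra B ∧ ¬ HasGrothendieckProperty B := by
  obtain ⟨B, hB, hmax⟩ := exists_maximal
  refine ⟨B, hmax, not_grothendieck hmax.1.2.2 (fun A hA => ?_) hB⟩
  have := hmax.1.1 A hA
  rwa [borel_eq_pi] at this

end Pool.Agent.MP54cd88
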